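import Pool.Agent.LR.Forms
import Pool.Agent.LR.B6.Defs

/-!
# Sections 7.4 (no long edges) and 7.6 (feedback): definitions

Both explorations are treated together: `R n` = starting set, `f n` = tilt absorbed in ghost edges.
Exploration (i): `R = outR`, `f = 0`; exploration (ii): `R = ∅`, `f` = charge in the ring 2.
-/

set_option autoImplicit false

noncomputable section

open scoped BigOperators Topology
open Filter

namespace Pool.Agent.LR

section Gen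

variable {W : Type*} [DecidableEq W]

/-- The charge of the average over `B`. -/
def bch (B : Finset W) (x : W) : ℝ := if x ∈ B then (B.card : ℝ)⁻¹ else 0

theorem pr_bch {B S : Finset W} (h : B ⊆ S) (φ : W → ℝ) : pr S (bch B) φ = avg B φ := by
  rw [avg_apply, pr, Finset.mul_sum]
  have h1 : ∀ x ∈ S, bch B x * φ x = if x ∈ B then (B.card : ℝ)⁻¹ * φ x else 0 := by
    intro x _
    unfold bch
    split_ifs <;> ring
  rw [Finset.sum_congr rfl h1, ← Finset.sum_filter, Finset.filter_mem_eq_inter,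
    Finset.inter_eq_right.2 h]

theorem pr_single {S : Finset W} {x : W} (h : x ∈ S) (φ : W → ℝ) :
    pr S (Pi.single x 1) φ = φ x := by
  rw [pr, Finset.sum_eq_single_of_mem x h]
  · simp
  · intro y _ hy
    simp [hy]

end Gen

/-- Steps of length at most `n ^ t`. -/
abbrev stp (t : ℝ) (n : ℕ) (u v : V) : Prop := len (u - v) ≤ (n : ℝ) ^ t

theorem stp_symm {t : ℝ} {n : ℕ} {u v : V} (h : stp t n u v) : stp t n v u := by
  unfold stp at *
  rw [← len_neg, neg_sub]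
  exact h

theorem blk_subset (z₀ : P) (ρ δ : ℝ) (n : ℕ) (i : V) : blk z₀ ρ δ n i ⊆ SS z₀ ρ n :=
  Finset.filter_subset _ _

open Classical in
/-- The pinned blocks which are cut by `A`. -/
def cut (z₀ : P) (ρ δ : ℝ) (n : ℕ) (A : Finset V) : Finset V :=
  (pin z₀ ρ δ).filter (fun i => (blk z₀ ρ δ n i ∩ A).Nonempty ∧ ¬ blk z₀ ρ δ n i ⊆ A)

/-- `X = ∑ M δ² a_i²` over the cut blocks, `a_i` = average of the explored part of the field. -/
def Xc (z₀ : P) (ρ M δ : ℝ) (n : ℕ) (A : Finset V) (φA : V → ℝ) : ℝ :=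
  ∑ i ∈ cut z₀ ρ δ n A, M * δ ^ 2 * (avg (blk z₀ ρ δ n i) φA) ^ 2

/-- `∑ M δ² w_i²` over all pinned blocks. -/
def Yc (z₀ : P) (ρ M δ : ℝ) (n : ℕ) (φ : V → ℝ) : ℝ :=
  ∑ i ∈ pin z₀ ρ δ, M * δ ^ 2 * (avg (blk z₀ ρ δ n i) φ) ^ 2

/-- Admissible explorations: starting set `R n`, absorbed tilt `f n`. -/
structure Expl (z₀ : P) (ρ : ℝ) (R : ℕ → Finset V) (f : ℕ → V → ℝ) : Prop where
  RS : ∀ n, R n ⊆ SS z₀ ρ n
  f0 : ∀ n x, 0 ≤ f n x
  bd : ∃ K : ℝ, 0 ≤ K ∧ ∀ n x, f n x ≤ K / (n : ℝ) ^ 2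
  far : ∀ (n : ℕ) (δ : ℝ), 0 < n → 0 < δ → ∀ i ∈ pin z₀ ρ δ, ¬ blk z₀ ρ δ n i ⊆ R n →
    ∀ x ∈ blk z₀ ρ δ n i, ∀ y ∈ seeds (SS z₀ ρ n) (R n) (f n), ρ / 4 * n ≤ len (x - y)

end Pool.Agent.LR
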