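import Pool.Agent.LR.B6F.Base

/-!
Algebra of the pins form (module LR-B6F-Cut): the feedback charge of an explored set only sees the
blocks which are cut by the explored set.
-/

set_option autoImplicit false

noncomputable section

open scoped BigOperators Topology
open Filter

namespace Pool.Agent.LR

private theorem sum_single_restr {W : Type*} [DecidableEq W] (O : Finset W) (χ : W → ℝ) :
    ∑ x ∈ O, χ x • (Pi.single x (1 : ℝ) : W → ℝ) = restr O χ := by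
  funext y
  rw [Finset.sum_apply]
  simp only [Pi.smul_apply, smul_eq_mul, restr]
  by_cases hy : y ∈ O
  · rw [if_pos hy, Finset.sum_eq_single_of_mem y hy]
    · simp
    · intro z _ hz
      rw [Pi.single_eq_of_ne (Ne.symm hz), mul_zero]
  · rw [if_neg hy]
    refine Finset.sum_eq_zero fun z hz => ?_
    have hzy : y ≠ z := fun h => hy (h ▸ hz)
    rw [Pi.single_eq_of_ne hzy, mul_zero]

theorem pr_fb {W : Type*} [DecidableEq W] (N : BF W) (O : Finset W) (φA χ : W → ℝ) :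
    pr O (fb N φA) χ = -(N φA (restr O χ)) := by
  rw [← sum_single_restr O χ, map_sum, pr, ← Finset.sum_neg_distrib]
  refine Finset.sum_congr rfl fun x _ => ?_
  rw [map_smul, smul_eq_mul, fb]
  ring

private theorem pinF_apply (z₀ : P) (ρ M δ : ℝ) (n : ℕ) (φ χ : V → ℝ) :
    pinF z₀ ρ M δ n φ χ = ∑ i ∈ pin z₀ ρ δ, M * δ ^ 2 * avg (blk z₀ ρ δ n i) φ *
      avg (blk z₀ ρ δ n i) χ := by
  simp only [pinF, LinearMap.sum_apply, rk_apply]

private theorem avg_zero {W : Type*} [DecidableEq W] {B : Finset W} {φ : W → ℝ}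
    (h : ∀ x ∈ B, φ x = 0) : avg B φ = 0 := by
  rw [avg_apply, Finset.sum_eq_zero h, mul_zero]

theorem fb_eq (z₀ : P) (ρ M δ : ℝ) (n : ℕ) {A : Finset V} (hA : A ⊆ SS z₀ ρ n) {φA : V → ℝ}
    (hφ : Supp A φA) (χ : V → ℝ) :
    pr (SS z₀ ρ n \ A) (fb (pinF z₀ ρ M δ n) φA) χ =
      -∑ i ∈ cut z₀ ρ δ n A, M * δ ^ 2 * avg (blk z₀ ρ δ n i) φA *
        avg (blk z₀ ρ δ n i) (restr (SS z₀ ρ n \ A) χ) := by
  rw [pr_fb, pinF_apply, neg_inj]
  symm
  unfold cut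
  refine Finset.sum_subset (Finset.filter_subset _ _) fun i hi hn => ?_
  rw [Finset.mem_filter, not_and, not_and_or, not_not] at hn
  rcases hn hi with h | h
  · have h0 : avg (blk z₀ ρ δ n i) φA = 0 := by
      refine avg_zero fun x hx => hφ x fun hxA => h ⟨x, Finset.mem_inter.2 ⟨hx, hxA⟩⟩
    rw [h0]
    ring
  · have h0 : avg (blk z₀ ρ δ n i) (restr (SS z₀ ρ n \ A) χ) = 0 := by
      refine avg_zero fun x hx => ?_
      rw [restr, if_neg]
      intro hx2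
      exact (Finset.mem_sdiff.1 hx2).2 (h hx)
    rw [h0]
    ring

theorem Yc_ge (z₀ : P) (ρ : ℝ) {M δ : ℝ} (hM : 0 ≤ M) (n : ℕ) {A : Finset V}
    (hA : A ⊆ SS z₀ ρ n) {φ : V → ℝ} (hφ : Supp (SS z₀ ρ n) φ) :
    Xc z₀ ρ M δ n A (restr A φ) ≤ Yc z₀ ρ M δ n φ +
      2 * pr (SS z₀ ρ n \ A) (fb (pinF z₀ ρ M δ n) (restr A φ)) φ := by
  have hsup : Supp A (restr A φ) := by
    intro x hx
    rw [restr, if_neg hx]
  have hdec : φ = restr A φ + restr (SS z₀ ρ n \ A) φ := by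
    funext x
    simp only [Pi.add_apply, restr, Finset.mem_sdiff]
    by_cases hxA : x ∈ A
    · simp [hxA]
    · by_cases hxS : x ∈ SS z₀ ρ n
      · simp [hxA, hxS]
      · simp [hxA, hxS, hφ x hxS]
  have hm : 0 ≤ M * δ ^ 2 := mul_nonneg hM (sq_nonneg δ)
  rw [fb_eq z₀ ρ M δ n hA hsup φ]
  have h1 : ∑ i ∈ cut z₀ ρ δ n A, M * δ ^ 2 * (avg (blk z₀ ρ δ n i) φ) ^ 2 ≤
      Yc z₀ ρ M δ n φ := by
    unfold Yc
    refine Finset.sum_le_sum_of_subset_of_nonneg ?_ fun i _ _ => mul_nonneg hm (sq_nonneg _)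
    unfold cut
    exact Finset.filter_subset _ _
  have h2 : Xc z₀ ρ M δ n A (restr A φ) + 2 * ∑ i ∈ cut z₀ ρ δ n A,
      M * δ ^ 2 * avg (blk z₀ ρ δ n i) (restr A φ) *
        avg (blk z₀ ρ δ n i) (restr (SS z₀ ρ n \ A) φ) ≤
      ∑ i ∈ cut z₀ ρ δ n A, M * δ ^ 2 * (avg (blk z₀ ρ δ n i) φ) ^ 2 := by
    unfold Xc
    rw [Finset.mul_sum, ← Finset.sum_add_distrib]
    refine Finset.sum_le_sum fun i _ => ?_
    have h3 : avg (blk z₀ ρ δ n i) φ = avg (blk z₀ ρ δ n i) (restr A φ) +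
        avg (blk z₀ ρ δ n i) (restr (SS z₀ ρ n \ A) φ) := by
      conv_lhs => rw [hdec]
      rw [map_add]
    rw [h3]
    have h4 := mul_nonneg hm (sq_nonneg (avg (blk z₀ ρ δ n i) (restr (SS z₀ ρ n \ A) φ)))
    nlinarith [h4]
  linarith

end Pool.Agent.LR
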