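import Pool.Agent.LR.B6F.Base

/-!
Module LR-B6F-Tail: cardinality of the box and the total coupling of the long pairs.
-/

set_option autoImplicit false

noncomputable section

open scoped BigOperators Topology
open Filter

namespace Pool.Agent.LR

private theorem card_Icc_le {a b : ℝ} (h : a ≤ b) :
    ((Finset.Icc ⌈a⌉ ⌊b⌋).card : ℝ) ≤ b - a + 1 := by
  rw [Int.card_Icc]
  have h1 := Int.floor_le b
  have h2 := Int.le_ceil a
  rcases le_total 0 (⌊b⌋ + 1 - ⌈a⌉) with h3 | h3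
  · have h4 : (((⌊b⌋ + 1 - ⌈a⌉).toNat : ℕ) : ℝ) = ((⌊b⌋ + 1 - ⌈a⌉ : ℤ) : ℝ) := by
      exact_mod_cast congrArg (fun z : ℤ => (z : ℝ)) (Int.toNat_of_nonneg h3)
    rw [h4]
    push_cast
    linarith
  · rw [Int.toNat_of_nonpos h3]
    push_cast
    linarith

theorem card_SS (z₀ : P) {ρ : ℝ} (hρ : 0 < ρ) {n : ℕ} (hn : 1 ≤ n) :
    ((SS z₀ ρ n).card : ℝ) ≤ (26 * ρ + 1) ^ 2 * (n : ℝ) ^ 2 := by
  have hn1 : (1 : ℝ) ≤ n := by exact_mod_cast hn
  unfold SS bx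
  rw [Finset.card_product]
  push_cast
  have h1 : ((Finset.Icc ⌈(n : ℝ) * (z₀.1 - 13 * ρ)⌉ ⌊(n : ℝ) * (z₀.1 + 13 * ρ)⌋).card : ℝ) ≤
      (26 * ρ + 1) * n := by
    refine (card_Icc_le (by nlinarith)).trans ?_
    nlinarith
  have h2 : ((Finset.Icc ⌈(n : ℝ) * (z₀.2 - 13 * ρ)⌉ ⌊(n : ℝ) * (z₀.2 + 13 * ρ)⌋).card : ℝ) ≤
      (26 * ρ + 1) * n := by
    refine (card_Icc_le (by nlinarith)).trans ?_
    nlinarith
  calc _ ≤ ((26 * ρ + 1) * (n : ℝ)) * ((26 * ρ + 1) * n) :=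
        mul_le_mul h1 h2 (Nat.cast_nonneg _) (by positivity)
    _ = _ := by ring

/-- A finite sum of long couplings is at most the tail of the series. -/
private theorem row_le {α β : ℝ} (hα : 2 < α) (hβ : 0 ≤ β) (S : Finset V) (x : V) (R : ℝ) :
    ∑ y ∈ S, (if R < len (x - y) then JJ α β x y else 0) ≤
      ∑' v : V, (if R < len v then Jc α β v else 0) := by
  have hnn : ∀ v : V, 0 ≤ (if R < len v then Jc α β v else 0) := by
    intro v
    split_ifs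
    · exact Jc_nonneg hβ v
    · exact le_rfl
  have hs : Summable fun v : V => (if R < len v then Jc α β v else 0) := by
    refine (summable_Jc hα β).of_nonneg_of_le hnn fun v => ?_
    split_ifs
    · exact le_rfl
    · exact Jc_nonneg hβ v
  have h1 : ∑ y ∈ S, (if R < len (x - y) then JJ α β x y else 0) =
      ∑ v ∈ S.map (Equiv.subLeft x).toEmbedding, (if R < len v then Jc α β v else 0) := by
    rw [Finset.sum_map]
    rfl
  rw [h1]
  exact hs.sum_le_tsum _ fun v _ => hnn v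

open Classical in
theorem long_sum {α β : ℝ} (hα : 4 < α) (hβ : 0 < β) (z₀ : P) {ρ : ℝ} (hρ : 0 < ρ) {t : ℝ}
    (ht : 2 / (α - 2) < t) :
    Tendsto (fun n : ℕ => Real.log n ^ 2 *
      ∑ e ∈ (SS z₀ ρ n ×ˢ SS z₀ ρ n).filter (fun e => ¬ stp t n e.1 e.2), JJ α β e.1 e.2)
      atTop (𝓝 0) := by
  have hα2 : 0 < α - 2 := by linarith
  have ht0 : 0 < t := lt_trans (by positivity) ht
  have h2t : 2 / t < α - 2 := by
    rw [div_lt_iff₀ hα2] at ht
    rw [div_lt_iff₀ ht0]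
    linarith
  set s : ℝ := (2 / t + (α - 2)) / 2 with hs
  have hs1 : 2 / t < s := by rw [hs]; linarith
  have hs2 : s < α - 2 := by rw [hs]; linarith
  have hs0 : 0 ≤ s := le_trans (by positivity) hs1.le
  have hts : 2 < t * s := by
    rw [div_lt_iff₀ ht0] at hs1
    linarith
  obtain ⟨C, hC, htail⟩ := tail_Jc (α := α) hs0 hs2 hβ.le
  set ε : ℝ := (t * s - 2) / 4 with hε
  have hε0 : 0 < ε := by rw [hε]; linarith
  -- the bound
  have hb : ∀ n : ℕ, 1 ≤ n → Real.log n ^ 2 *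
      ∑ e ∈ (SS z₀ ρ n ×ˢ SS z₀ ρ n).filter (fun e => ¬ stp t n e.1 e.2), JJ α β e.1 e.2 ≤
      ((26 * ρ + 1) ^ 2 * C / ε ^ 2) * (n : ℝ) ^ (-(2 * ε)) := by
    intro n hn
    have hn1 : (1 : ℝ) ≤ n := by exact_mod_cast hn
    have hn0 : (0 : ℝ) < n := by linarith
    have h1 : ∑ e ∈ (SS z₀ ρ n ×ˢ SS z₀ ρ n).filter (fun e => ¬ stp t n e.1 e.2),
        JJ α β e.1 e.2 ≤ ((SS z₀ ρ n).card : ℝ) * (C * ((n : ℝ) ^ t) ^ (-s)) := by
      rw [Finset.sum_filter, Finset.sum_product]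
      rw [← nsmul_eq_mul]
      refine Finset.sum_le_card_nsmul _ _ _ fun x _ => ?_
      refine le_trans (le_of_eq ?_) ((row_le (by linarith) hβ.le (SS z₀ ρ n) x ((n : ℝ) ^ t)).trans
        (htail _ (Real.rpow_pos_of_pos hn0 t)))
      refine Finset.sum_congr rfl fun y _ => ?_
      simp only [stp, not_le]
    have h2 : ((n : ℝ) ^ t) ^ (-s) = (n : ℝ) ^ (-(4 * ε) - 2) := by
      rw [← Real.rpow_mul hn0.le]
      congr 1
      rw [hε]
      ring
    rw [h2] at h1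
    have h3 : ((SS z₀ ρ n).card : ℝ) * (C * (n : ℝ) ^ (-(4 * ε) - 2)) ≤
        (26 * ρ + 1) ^ 2 * C * (n : ℝ) ^ (-(4 * ε)) := by
      have h4 : (0 : ℝ) ≤ C * (n : ℝ) ^ (-(4 * ε) - 2) := by positivity
      refine (mul_le_mul_of_nonneg_right (card_SS z₀ hρ hn) h4).trans (le_of_eq ?_)
      have h5 : (n : ℝ) ^ (-(4 * ε)) = (n : ℝ) ^ (-(4 * ε) - 2) * (n : ℝ) ^ 2 := by
        rw [← Real.rpow_natCast (n : ℝ) 2, ← Real.rpow_add hn0]
        congr 1
        push_cast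
        ring
      rw [h5]
      ring
    have hlog0 : 0 ≤ Real.log n := Real.log_nonneg hn1
    have hlog : Real.log n ≤ (n : ℝ) ^ ε / ε := Real.log_le_rpow_div hn0.le hε0
    have hlog2 : Real.log n ^ 2 ≤ (n : ℝ) ^ (2 * ε) / ε ^ 2 := by
      have h6 : (n : ℝ) ^ (2 * ε) = ((n : ℝ) ^ ε) ^ 2 := by
        rw [← Real.rpow_natCast ((n : ℝ) ^ ε) 2, ← Real.rpow_mul hn0.le]
        congr 1
        push_cast
        ring
      rw [h6, ← div_pow]
      exact pow_le_pow_left₀ hlog0 hlog 2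
    have hsum0 : 0 ≤ (26 * ρ + 1) ^ 2 * C * (n : ℝ) ^ (-(4 * ε)) := by positivity
    calc _ ≤ Real.log n ^ 2 * ((26 * ρ + 1) ^ 2 * C * (n : ℝ) ^ (-(4 * ε))) :=
          mul_le_mul_of_nonneg_left (h1.trans h3) (sq_nonneg _)
      _ ≤ ((n : ℝ) ^ (2 * ε) / ε ^ 2) * ((26 * ρ + 1) ^ 2 * C * (n : ℝ) ^ (-(4 * ε))) :=
          mul_le_mul_of_nonneg_right hlog2 hsum0
      _ = _ := by
          have h7 : (n : ℝ) ^ (-(2 * ε)) = (n : ℝ) ^ (2 * ε) * (n : ℝ) ^ (-(4 * ε)) := by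
            rw [← Real.rpow_add hn0]
            congr 1
            ring
          rw [h7]
          ring
  have hlim : Tendsto (fun n : ℕ => ((26 * ρ + 1) ^ 2 * C / ε ^ 2) * (n : ℝ) ^ (-(2 * ε)))
      atTop (𝓝 0) := by
    have h8 := ((tendsto_rpow_neg_atTop (y := 2 * ε) (by positivity)).comp
      tendsto_natCast_atTop_atTop).const_mul ((26 * ρ + 1) ^ 2 * C / ε ^ 2)
    rw [mul_zero] at h8
    exact h8
  refine squeeze_zero' ?_ ?_ hlim
  · refine Eventually.of_forall fun n => ?_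
    refine mul_nonneg (sq_nonneg _) (Finset.sum_nonneg fun e _ => JJ_nonneg hβ.le _ _)
  · filter_upwards [eventually_ge_atTop 1] with n hn
    exact hb n hn

end Pool.Agent.LR
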