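import Pool.Agent.LR.B5.Green
import Pool.Agent.LR.B5.Cut
import Pool.Agent.LR.B1.Rest
import Pool.Agent.LR.B6.Ratio
import Pool.Agent.LR.B6F.Tail

/-!
PLAN (module LR-B6F-Norm). B5.poinc, B5.green, B5.blockbd are interface statements of other
blocks (skeleton), * those of block B1. MP α β z₀ ρ M δ n = MM (JJ α β) (pinF z₀ ρ M δ n) (SS z₀ ρ n)
by rfl (MP_eq below).
mod_ev: Js, J0: JJ_symm, JJ_nonneg. Nf: pinF is a sum of rk (M δ²) (..) with M δ² ≥ 0: IsForm.sum,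
isForm_rk. pd: by poinc (eventually in n; also n ≥ 1): for φ supported in S, φ ≠ 0: 0 < ∑_{x ∈ S} φ x² / n² ≤
C * MP φ φ, C > 0.
nsq_bdd, nsq_site, nsq_blk: nsq_le_of_sq (IsForm of MM: isForm_Qfr + Nf, PDef: mod_ev) with:
 * (pr S l φ)² ≤ (∑ l²)(∑ φ²) ≤ (card S * (K/n²)²) (n² C MP φ φ) ≤ K² (26ρ+1)² C MP φ φ (card_SS, n ≥ 1);
   constant K² (26ρ+1)² C + 1;
 * pr S (single x 1) φ = φ x (pr_single) and green;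
 * pr S (bch (blk i)) φ = avg (blk i) φ (pr_bch, blk_subset) and blockbd.
-/

set_option autoImplicit false

noncomputable section

open scoped BigOperators Topology
open Filter

namespace Pool.Agent.LR


theorem MP_eq (α β : ℝ) (z₀ : P) (ρ M δ : ℝ) (n : ℕ) :
    MP α β z₀ ρ M δ n = MM (JJ α β) (pinF z₀ ρ M δ n) (SS z₀ ρ n) := rfl

theorem mod_ev {α β : ℝ} (hα : 4 < α) (hβ : 0 < β) (z₀ : P) {ρ : ℝ} (hρ : 0 < ρ) {M δ : ℝ}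
    (hM : 1 ≤ M) (hδ : 0 < δ) (hδρ : δ ≤ ρ / 8) :
    ∀ᶠ n : ℕ in atTop, Mod (JJ α β) (pinF z₀ ρ M δ n) (SS z₀ ρ n) := by
  obtain ⟨C, hC, hp⟩ := B5.poinc hα hβ z₀ hρ
  filter_upwards [hp M δ hM hδ hδρ, eventually_ge_atTop 1] with n hn h1
  refine ⟨JJ_symm α β, JJ_nonneg hβ.le, ?_, ?_⟩
  · exact IsForm.sum _ fun i _ => isForm_rk (by positivity) _
  · intro f hf h0
    have hex : ∃ x, f x ≠ 0 := by
      by_contra hcon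
      push_neg at hcon
      exact h0 (funext hcon)
    obtain ⟨x, hx⟩ := hex
    have hxS : x ∈ SS z₀ ρ n := by
      by_contra hcon
      exact hx (hf x hcon)
    have hpos : 0 < ∑ x ∈ SS z₀ ρ n, f x ^ 2 := by
      refine Finset.sum_pos' (fun y _ => sq_nonneg _) ⟨x, hxS, ?_⟩
      positivity
    have hn0 : (0 : ℝ) < (n : ℝ) ^ 2 := by
      have : (0 : ℝ) < n := by exact_mod_cast h1
      positivity
    have h2 := hn f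
    rw [MP_eq] at h2
    have h3 : 0 < C * MM (JJ α β) (pinF z₀ ρ M δ n) (SS z₀ ρ n) f f :=
      lt_of_lt_of_le (div_pos hpos hn0) h2
    exact pos_of_mul_pos_right h3 hC.le

theorem isForm_MM {W : Type*} [DecidableEq W] {J : W → W → ℝ} {N : BF W} {S : Finset W}
    (h : Mod J N S) : IsForm (MM J N S) :=
  (isForm_Qfr fun x _ y _ => h.J0 x y).add h.Nf

theorem nsq_bdd {α β : ℝ} (hα : 4 < α) (hβ : 0 < β) (z₀ : P) {ρ : ℝ} (hρ : 0 < ρ) (K : ℝ) :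
    ∃ C > 0, ∀ M δ : ℝ, 1 ≤ M → 0 < δ → δ ≤ ρ / 8 → ∀ᶠ n : ℕ in atTop, ∀ l : V → ℝ,
      (∀ x ∈ SS z₀ ρ n, |l x| ≤ K / (n : ℝ) ^ 2) →
      nsq (MP α β z₀ ρ M δ n) (SS z₀ ρ n) l ≤ C := by
  obtain ⟨C, hC, hp⟩ := B5.poinc hα hβ z₀ hρ
  refine ⟨K ^ 2 * (26 * ρ + 1) ^ 2 * C + 1, by positivity, fun M δ hM hδ hδρ => ?_⟩
  filter_upwards [hp M δ hM hδ hδρ, mod_ev hα hβ z₀ hρ hM hδ hδρ, eventually_ge_atTop 1]
    with n hn hmod h1 l hl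
  rw [MP_eq]
  refine nsq_le_of_sq (isForm_MM hmod) hmod.pd l (by positivity) fun φ hφ => ?_
  have hn1 : (0 : ℝ) < n := by exact_mod_cast h1
  have hn0 : (0 : ℝ) < (n : ℝ) ^ 2 := by positivity
  have hcs : (pr (SS z₀ ρ n) l φ) ^ 2 ≤
      (∑ x ∈ SS z₀ ρ n, l x ^ 2) * ∑ x ∈ SS z₀ ρ n, φ x ^ 2 := by
    unfold pr
    exact Finset.sum_mul_sq_le_sq_mul_sq _ _ _
  have hl2 : ∑ x ∈ SS z₀ ρ n, l x ^ 2 ≤ ((26 * ρ + 1) ^ 2 * (n : ℝ) ^ 2) * (K / (n : ℝ) ^ 2) ^ 2 := by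
    calc ∑ x ∈ SS z₀ ρ n, l x ^ 2 ≤ ∑ _x ∈ SS z₀ ρ n, (K / (n : ℝ) ^ 2) ^ 2 := by
          refine Finset.sum_le_sum fun x hx => ?_
          rw [← sq_abs (l x)]
          exact pow_le_pow_left₀ (abs_nonneg _) (hl x hx) 2
      _ = ((SS z₀ ρ n).card : ℝ) * (K / (n : ℝ) ^ 2) ^ 2 := by
          rw [Finset.sum_const, nsmul_eq_mul]
      _ ≤ _ := mul_le_mul_of_nonneg_right (card_SS z₀ hρ h1) (sq_nonneg _)
  have hφ2 : ∑ x ∈ SS z₀ ρ n, φ x ^ 2 ≤ (n : ℝ) ^ 2 *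
      (C * MM (JJ α β) (pinF z₀ ρ M δ n) (SS z₀ ρ n) φ φ) := by
    have h2 := hn φ
    rw [MP_eq, div_le_iff₀ hn0] at h2
    linarith
  have hMnn : 0 ≤ MM (JJ α β) (pinF z₀ ρ M δ n) (SS z₀ ρ n) φ φ :=
    (isForm_MM hmod).nonneg φ
  calc (pr (SS z₀ ρ n) l φ) ^ 2
      ≤ (∑ x ∈ SS z₀ ρ n, l x ^ 2) * ∑ x ∈ SS z₀ ρ n, φ x ^ 2 := hcs
    _ ≤ (((26 * ρ + 1) ^ 2 * (n : ℝ) ^ 2) * (K / (n : ℝ) ^ 2) ^ 2) *
        ((n : ℝ) ^ 2 * (C * MM (JJ α β) (pinF z₀ ρ M δ n) (SS z₀ ρ n) φ φ)) := by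
        refine mul_le_mul hl2 hφ2 (Finset.sum_nonneg fun x _ => sq_nonneg _) (by positivity)
    _ = K ^ 2 * (26 * ρ + 1) ^ 2 * C * MM (JJ α β) (pinF z₀ ρ M δ n) (SS z₀ ρ n) φ φ := by
        have hne : (n : ℝ) ≠ 0 := hn1.ne'
        field_simp
    _ ≤ _ := mul_le_mul_of_nonneg_right (by linarith) hMnn

theorem nsq_site {α β : ℝ} (hα : 4 < α) (hβ : 0 < β) (z₀ : P) {ρ : ℝ} (hρ : 0 < ρ) :
    ∃ C > 0, ∀ M δ : ℝ, 1 ≤ M → 0 < δ → δ ≤ ρ / 8 → ∀ᶠ n : ℕ in atTop, ∀ x ∈ SS z₀ ρ n,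
      nsq (MP α β z₀ ρ M δ n) (SS z₀ ρ n) (Pi.single x 1) ≤ C * Real.log n ^ 2 := by
  obtain ⟨C, hC, hp⟩ := B5.green hα hβ z₀ hρ
  refine ⟨C, hC, fun M δ hM hδ hδρ => ?_⟩
  filter_upwards [hp M δ hM hδ hδρ, mod_ev hα hβ z₀ hρ hM hδ hδρ] with n hn hmod x hx
  rw [MP_eq]
  refine nsq_le_of_sq (isForm_MM hmod) hmod.pd _ (by positivity) fun φ hφ => ?_
  rw [pr_single hx]
  exact hn φ x hx

theorem nsq_blk {α β : ℝ} (hα : 4 < α) (hβ : 0 < β) (z₀ : P) {ρ : ℝ} (hρ : 0 < ρ) :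
    ∃ C > 0, ∀ M δ : ℝ, 1 ≤ M → 0 < δ → δ ≤ ρ / 8 → ∀ᶠ n : ℕ in atTop, ∀ i ∈ pin z₀ ρ δ,
      nsq (MP α β z₀ ρ M δ n) (SS z₀ ρ n) (bch (blk z₀ ρ δ n i)) ≤ C * (1 + |Real.log δ|) ^ 2 := by
  obtain ⟨C, hC, hp⟩ := B5.blockbd hα hβ z₀ hρ
  refine ⟨C, hC, fun M δ hM hδ hδρ => ?_⟩
  filter_upwards [hp M δ hM hδ hδρ, mod_ev hα hβ z₀ hρ hM hδ hδρ] with n hn hmod i hi
  rw [MP_eq]
  refine nsq_le_of_sq (isForm_MM hmod) hmod.pd _ (by positivity) fun φ hφ => ?_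
  rw [pr_bch (blk_subset z₀ ρ δ n i)]
  exact hn φ i hi

end Pool.Agent.LR
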