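import Pool.Agent.LR.B5.Green
import Pool.Agent.LR.B5.Cut
import Pool.Agent.LR.B6F.Norm
import Pool.Agent.LR.B6F.Cut

/-!
Module LR-B6F-CutN: dual norm of the feedback charge, from the estimate for cut blocks.
-/

set_option autoImplicit false

noncomputable section

open scoped BigOperators Topology
open Filter

namespace Pool.Agent.LR


private theorem isForm_pinF' (z₀ : P) (ρ : ℝ) {M δ : ℝ} (hM : 0 ≤ M) (n : ℕ) :
    IsForm (pinF z₀ ρ M δ n) :=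
  IsForm.sum _ fun _ _ => isForm_rk (mul_nonneg hM (sq_nonneg δ)) _

theorem nsq_fb_le {α β : ℝ} (hα : 4 < α) (hβ : 0 < β) (z₀ : P) {ρ : ℝ} (hρ : 0 < ρ)
    {R : ℕ → Finset V} {f : ℕ → V → ℝ} (hE : Expl z₀ ρ R f) :
    ∃ C > 0, ∀ M δ : ℝ, 1 ≤ M → 0 < δ → δ ≤ ρ / 32 → ∀ t : ℝ, t < 1 → ∀ᶠ n : ℕ in atTop,
      ∀ A : Finset V, A ⊆ SS z₀ ρ n → R n ⊆ A →
      Chn (stp t n) (seeds (SS z₀ ρ n) (R n) (f n)) A → ∀ φA : V → ℝ, Supp A φA →
        nsq (MP α β z₀ ρ M δ n) (SS z₀ ρ n \ A) (fb (pinF z₀ ρ M δ n) φA) ≤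
          C * M * δ ^ 2 * Xc z₀ ρ M δ n A φA := by
  obtain ⟨C, hC, hcut⟩ := B5.cutblocks hα hβ z₀ hρ
  refine ⟨C, hC, ?_⟩
  intro M δ hM hδ hδρ t ht
  have hM0 : 0 ≤ M := by linarith
  filter_upwards [hcut δ hδ hδρ t ht, mod_ev hα hβ z₀ hρ hM hδ (by linarith),
    eventually_ge_atTop 1] with n hn hmod hn1
  intro A hA hRA hchn φA hφA
  have hn0 : (0 : ℝ) < n := by exact_mod_cast hn1
  have hN : IsForm (pinF z₀ ρ M δ n) := isForm_pinF' z₀ ρ hM0 n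
  have hform : IsForm (MP α β z₀ ρ M δ n) := by
    rw [MP_eq]
    exact isForm_MM hmod
  have hpd : PDef (MP α β z₀ ρ M δ n) (SS z₀ ρ n \ A) := by
    rw [MP_eq]
    exact PDef.mono Finset.sdiff_subset hmod.pd
  have hm : 0 ≤ M * δ ^ 2 := mul_nonneg hM0 (sq_nonneg δ)
  have hX0 : 0 ≤ Xc z₀ ρ M δ n A φA :=
    Finset.sum_nonneg fun i _ => mul_nonneg hm (sq_nonneg _)
  refine nsq_le_of_sq hform hpd _ (by positivity) fun χ hχ => ?_
  -- the estimate for the cut blocks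
  have hχA : ∀ x ∈ A, χ x = 0 := fun x hx => hχ x fun h => (Finset.mem_sdiff.1 h).2 hx
  have hblocks : ∑ i ∈ cut z₀ ρ δ n A, (avg (blk z₀ ρ δ n i) χ) ^ 2 ≤
      C * QF α β (SS z₀ ρ n) χ χ := by
    refine hn (cut z₀ ρ δ n A) A (by unfold cut; exact Finset.filter_subset _ _) hA ?_ χ hχA
    intro i hi
    unfold cut at hi
    rw [Finset.mem_filter] at hi
    obtain ⟨hip, ⟨x, hx⟩, hnot⟩ := hi
    rw [Finset.mem_inter] at hx
    obtain ⟨y, hyA, hyD, hch⟩ := hchn x hx.2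
    refine ⟨x, hx.1, y, ?_, ?_⟩
    · have hfar := hE.far n δ (by omega) hδ i hip (fun h => hnot (h.trans hRA)) x hx.1 y hyD
      refine le_trans ?_ hfar
      have : 4 * δ ≤ ρ / 4 := by linarith
      exact mul_le_mul_of_nonneg_right this hn0.le
    · have hsym : ∀ u v : V, Relation.ReflTransGen
          (fun u v => u ∈ A ∧ v ∈ A ∧ stp t n u v) u v →
          Relation.ReflTransGen (fun u v => u ∈ A ∧ v ∈ A ∧ stp t n u v) v u := by
        intro u v huv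
        induction huv with
        | refl => exact Relation.ReflTransGen.refl
        | tail _ h2 ih =>
          exact Relation.ReflTransGen.head ⟨h2.2.1, h2.1, stp_symm h2.2.2⟩ ih
      exact hsym y x hch
  have hQ : QF α β (SS z₀ ρ n) χ χ ≤ MP α β z₀ ρ M δ n χ χ := by
    have h1 : MP α β z₀ ρ M δ n χ χ = QF α β (SS z₀ ρ n) χ χ + pinF z₀ ρ M δ n χ χ := rfl
    rw [h1]
    have := hN.nonneg χ
    linarith
  -- the pairing
  have hrest : restr (SS z₀ ρ n \ A) χ = χ := by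
    funext x
    by_cases hx : x ∈ SS z₀ ρ n \ A
    · rw [restr, if_pos hx]
    · rw [restr, if_neg hx, hχ x hx]
  rw [fb_eq z₀ ρ M δ n hA hφA χ, hrest, neg_sq]
  have hcs := Finset.sum_mul_sq_le_sq_mul_sq (cut z₀ ρ δ n A)
    (fun i => M * δ ^ 2 * avg (blk z₀ ρ δ n i) φA) (fun i => avg (blk z₀ ρ δ n i) χ)
  have hX : ∑ i ∈ cut z₀ ρ δ n A, (M * δ ^ 2 * avg (blk z₀ ρ δ n i) φA) ^ 2 =
      M * δ ^ 2 * Xc z₀ ρ M δ n A φA := by
    unfold Xc
    rw [Finset.mul_sum]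
    refine Finset.sum_congr rfl fun i _ => by ring
  rw [hX] at hcs
  calc _ ≤ M * δ ^ 2 * Xc z₀ ρ M δ n A φA *
        ∑ i ∈ cut z₀ ρ δ n A, (avg (blk z₀ ρ δ n i) χ) ^ 2 := hcs
    _ ≤ M * δ ^ 2 * Xc z₀ ρ M δ n A φA * (C * MP α β z₀ ρ M δ n χ χ) :=
        mul_le_mul_of_nonneg_left (hblocks.trans (mul_le_mul_of_nonneg_left hQ hC.le))
          (mul_nonneg hm hX0)
    _ = _ := by ring

end Pool.Agent.LR
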