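import Pool.Agent.LR.B6.Ratio
import Pool.Agent.LR.B1.Rest
import Pool.Agent.LR.B6F.Base

/-!
PLAN (module LR-B6F-FeedA). Abstract feedback argument. E[..] = EtA J (MM J N S) S R f f (..), O = S \ A,
nu A φ = nsq (MM J N S) O (fb N (restr A φ)), c A = if a A then 1 else 0.
(1) E[c X] ≤ E[Y] + 2 E[c * pr O (fb N (restr A φ)) φ]: EtA_mono (c X(A, restr A φ) ≤ c (Y φ + 2 pr ..) ≤ Y φ + 2 c pr..
    because Y ≥ 0 ; emb S ψ is supported in S: supp_emb), EtA_add, EtA_const_mul.
    E[Y] = Et .. (EtA_field) ≤ y.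
(2) expl_mean with g = 0 (rewrite f = f + 0 with add_zero), weight a := fun A φ => c A and charge
    l := fun A φ => fb N φ: |E[c pr O (fb N (restr A φ)) φ]| ≤ E[c * (2 √(nsq (0 + fb ..)) √(nsq (fb ..)))] =
    2 E[c nu] (zero_add, Real.mul_self_sqrt, nsq_nonneg for PDef on O (PDef.mono); to replace inside EtA
    use funext; nu is only nonnegative for A ⊆ S, so use EtA_mono (both directions not needed) with A ⊆ S).
(3) E[c nu] ≤ θ E[c X]: EtA_mono: for PA ≠ 0 one has R ⊆ A (PA_eq_zero contrapositive), then h1 with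
    φ = restr A (emb S ψ) (supported in A); EtA_const_mul.
(4) so E[cX] ≤ y + 4 θ E[cX] ≤ y + E[cX]/2, E[cX] ≤ 2 y (E[cX] is a real number; y ≥ 0 because Y ≥ 0).
(5) 1[a ∧ η' < nu] ≤ c nu / η' pointwise (nu ≥ 0), so the left side is ≤ E[c nu]/η' ≤ θ E[cX]/η' ≤ 2θy/η'.
Admissibility of the functions: Adm.of_bdd for indicators, admX, admY, Adm.nsqA (with g = 0 and zero_add)
for nu, Adm.mul, Adm.add, Adm.const; for pr O (fb N (restr A φ)) φ = ∑_{x ∈ O} fb N (restr A φ) x * φ x:
Adm.sum, Adm.mul, Adm.apply and Adm.form (fb is minus a form at the restricted field).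
-/

set_option autoImplicit false

noncomputable section

open scoped BigOperators Topology
open Filter

namespace Pool.Agent.LR


variable {W : Type*} [DecidableEq W] {J : W → W → ℝ} {N : BF W} {S R : Finset W} {f : W → ℝ}

private theorem adm_fb {A : Finset W} (hA : A ⊆ S) (x : W) :
    Adm S (fun φ => fb N (restr A φ) x) :=
  Adm.of_le (Adm.form N A (Pi.single x 1)) (fun φ _ => by simp [fb])

private theorem adm_prfb {A : Finset W} (hA : A ⊆ S) :
    Adm S (fun φ => pr (S \ A) (fb N (restr A φ)) φ) := by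
  unfold pr
  exact Adm.sum (S \ A) (fun x _ => Adm.mul (adm_fb hA x) (Adm.apply x))

private theorem supp_restr' (A : Finset W) (φ : W → ℝ) : Supp A (restr A φ) := by
  intro x hx
  simp [restr, hx]

open Classical in
theorem feed_abs (hMod : Mod J N S) (hR : R ⊆ S) (f0 : ∀ x ∈ S, 0 ≤ f x) (a : Finset W → Prop)
    (X : Finset W → (W → ℝ) → ℝ) (Y : (W → ℝ) → ℝ)
    (hX0 : ∀ A φ, 0 ≤ X A φ) (hY0 : ∀ φ, 0 ≤ Y φ)
    (admX : ∀ A, A ⊆ S → Adm S (fun φ => X A (restr A φ))) (admY : Adm S Y) {θ : ℝ} (hθ0 : 0 ≤ θ)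
    (hθ : 8 * θ ≤ 1)
    (h1 : ∀ A, A ⊆ S → R ⊆ A → a A → ∀ φ, Supp A φ →
      nsq (MM J N S) (S \ A) (fb N φ) ≤ θ * X A φ)
    (h2 : ∀ A, A ⊆ S → ∀ φ, Supp S φ →
      X A (restr A φ) ≤ Y φ + 2 * pr (S \ A) (fb N (restr A φ)) φ)
    {y : ℝ} (hY : Et (MM J N S) S f (fun ψ => Y (emb S ψ)) ≤ y) {η' : ℝ} (hη' : 0 < η') :
    EtA J (MM J N S) S R f f
      (fun A φ => if a A ∧ η' < nsq (MM J N S) (S \ A) (fb N (restr A φ)) then 1 else 0) ≤
        2 * θ * y / η' := by
  set E : (Finset W → (W → ℝ) → ℝ) → ℝ := EtA J (MM J N S) S R f f with hE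
  set c : Finset W → ℝ := fun A => if a A then 1 else 0 with hc
  have hc0 : ∀ A, 0 ≤ c A := fun A => by simp only [hc]; split_ifs <;> norm_num
  have hform : IsForm (MM J N S) :=
    (isForm_Qfr (fun x _ y _ => hMod.J0 x y)).add hMod.Nf
  have hpd : ∀ A : Finset W, PDef (MM J N S) (S \ A) := fun A φ hφ h0 =>
    hMod.pd φ (hφ.mono Finset.sdiff_subset) h0
  have hnu0 : ∀ (A : Finset W) (φ : W → ℝ),
      0 ≤ nsq (MM J N S) (S \ A) (fb N (restr A φ)) := fun A φ =>
    nsq_nonneg hform (hpd A) _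
  have aNu : ∀ A, A ⊆ S → Adm S (fun φ => nsq (MM J N S) (S \ A) (fb N (restr A φ))) := by
    intro A hA
    have := Adm.nsqA hMod A 0
    simpa only [zero_add] using this
  have acNu : ∀ A, A ⊆ S → Adm S (fun φ => c A * nsq (MM J N S) (S \ A) (fb N (restr A φ))) :=
    fun A hA => Adm.mul (Adm.const _) (aNu A hA)
  have acX : ∀ A, A ⊆ S → Adm S (fun φ => c A * X A (restr A φ)) :=
    fun A hA => Adm.mul (Adm.const _) (admX A hA)
  have acL : ∀ A, A ⊆ S → Adm S (fun φ => c A * pr (S \ A) (fb N (restr A φ)) φ) :=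
    fun A hA => Adm.mul (Adm.const _) (adm_prfb hA)
  -- (1)
  have s1 : E (fun A φ => c A * X A (restr A φ)) ≤
      y + 2 * E (fun A φ => c A * pr (S \ A) (fb N (restr A φ)) φ) := by
    have m1 : E (fun A φ => c A * X A (restr A φ)) ≤
        E (fun A φ => Y φ + 2 * (c A * pr (S \ A) (fb N (restr A φ)) φ)) := by
      refine EtA_mono hMod f0 acX
        (fun A hA => Adm.add admY (Adm.mul (Adm.const 2) (acL A hA))) ?_
      intro A hA ψ _
      have h2' := h2 A hA (emb S ψ) (supp_emb ψ)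
      have hY0' := hY0 (emb S ψ)
      simp only [hc]
      split_ifs
      · linarith
      · linarith
    have m2 : E (fun A φ => Y φ + 2 * (c A * pr (S \ A) (fb N (restr A φ)) φ)) =
        E (fun _ φ => Y φ) + 2 * E (fun A φ => c A * pr (S \ A) (fb N (restr A φ)) φ) := by
      rw [hE, EtA_add hMod f0 (Ξ := fun _ φ => Y φ)
        (Υ := fun A φ => 2 * (c A * pr (S \ A) (fb N (restr A φ)) φ)) (fun _ _ => admY)
        (fun A hA => Adm.mul (Adm.const 2) (acL A hA)), EtA_const_mul]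
    have m3 : E (fun _ φ => Y φ) = Et (MM J N S) S f (fun ψ => Y (emb S ψ)) := by
      rw [hE]; exact EtA_field Y
    linarith
  -- (2)
  have s2 : |E (fun A φ => c A * pr (S \ A) (fb N (restr A φ)) φ)| ≤
      2 * E (fun A φ => c A * nsq (MM J N S) (S \ A) (fb N (restr A φ))) := by
    have m1 := expl_mean (g := 0) hMod hR f0 (fun A _ => c A) (fun A _ => hc0 A)
      (fun _ φ => fb N φ) (fun A _ => Adm.const (c A)) (fun A hA x => adm_fb hA x)
    simp only [add_zero, zero_add] at m1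
    refine m1.trans ?_
    rw [hE, ← EtA_const_mul]
    have heq : ∀ (A : Finset W) (φ : W → ℝ),
        c A * (2 * Real.sqrt (nsq (MM J N S) (S \ A) (fb N (restr A φ))) *
          Real.sqrt (nsq (MM J N S) (S \ A) (fb N (restr A φ)))) =
        2 * (c A * nsq (MM J N S) (S \ A) (fb N (restr A φ))) := by
      intro A φ
      have := Real.mul_self_sqrt (hnu0 A φ)
      rw [mul_assoc 2, this]
      ring
    simp only [heq]
    exact le_rfl
  -- (3)
  have s3 : E (fun A φ => c A * nsq (MM J N S) (S \ A) (fb N (restr A φ))) ≤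
      θ * E (fun A φ => c A * X A (restr A φ)) := by
    rw [hE, ← EtA_const_mul]
    refine EtA_mono hMod f0 acNu (fun A hA => Adm.mul (Adm.const θ) (acX A hA)) ?_
    intro A hA ψ hPA
    have hRA : R ⊆ A := by
      by_contra h
      exact hPA (PA_eq_zero hR h)
    simp only [hc]
    split_ifs with ha
    · have := h1 A hA hRA ha (restr A (emb S ψ)) (supp_restr' A _)
      linarith
    · simp
  -- positivity
  have hzero : E (fun _ _ => 0) = 0 := by
    have := EtA_const_mul (J := J) (N := N) (S := S) (R := R) (f := f) (h := f) 0 (fun _ _ => 0)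
    simpa using this
  have hx0 : 0 ≤ E (fun A φ => c A * X A (restr A φ)) := by
    rw [← hzero]
    refine EtA_mono hMod f0 (fun A _ => Adm.const 0) acX ?_
    intro A hA ψ _
    exact mul_nonneg (hc0 A) (hX0 A _)
  -- (4)
  have s4 : E (fun A φ => c A * X A (restr A φ)) ≤ 2 * y := by
    have h5 := le_abs_self (E (fun A φ => c A * pr (S \ A) (fb N (restr A φ)) φ))
    nlinarith
  -- (5)
  have s5 : E (fun A φ => if a A ∧ η' < nsq (MM J N S) (S \ A) (fb N (restr A φ)) then 1 else 0) ≤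
      (1 / η') * E (fun A φ => c A * nsq (MM J N S) (S \ A) (fb N (restr A φ))) := by
    rw [hE, ← EtA_const_mul]
    refine EtA_mono hMod f0 (fun A _ => Adm.of_bdd (C := 1) (fun φ => by split_ifs <;> simp))
      (fun A hA => Adm.mul (Adm.const _) (acNu A hA)) ?_
    intro A hA ψ _
    have hn := hnu0 A (emb S ψ)
    split_ifs with h
    · have hcA : c A = 1 := by simp only [hc]; rw [if_pos h.1]
      rw [hcA, one_mul, one_div, ← div_eq_inv_mul, le_div_iff₀ hη']
      linarith [h.2]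
    · have : 0 ≤ c A * nsq (MM J N S) (S \ A) (fb N (restr A (emb S ψ))) :=
        mul_nonneg (hc0 A) hn
      positivity
  refine s5.trans ?_
  rw [div_mul_eq_mul_div, one_mul, div_le_div_iff_of_pos_right hη']
  refine s3.trans ?_
  nlinarith

end Pool.Agent.LR
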