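import Pool.Agent.LR.B6F.Base

/-!
PLAN (module LR-B6F-Lim).
pin_card: pin is a filter of K × K with K = Icc (-⌈13ρ/δ⌉) ⌈13ρ/δ⌉, card K = 2⌈13ρ/δ⌉ + 1 ≤ 26ρ/δ + 3 ≤ 29ρ/δ
(δ ≤ ρ), so card pin ≤ (29ρ/δ)² and card * δ² ≤ 841 ρ².
small_log: δ (1 + |log δ|) → 0 as δ → 0+ (for 0 < δ < 1: |log δ| = log (1/δ) ≤ 2 δ^(-1/2)..., e.g.
Real.log_le_rpow_div or Real.tendsto_log_mul_rpow_nhdsGT_zero), so B δ² (1+|log δ|)² ≤ η for small δ.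
-/

set_option autoImplicit false

noncomputable section

open scoped BigOperators Topology
open Filter

namespace Pool.Agent.LR

theorem pin_card (z₀ : P) {ρ δ : ℝ} (hρ : 0 < ρ) (hδ : 0 < δ) (hδρ : δ ≤ ρ) :
    ((pin z₀ ρ δ).card : ℝ) * δ ^ 2 ≤ 841 * ρ ^ 2 := by
  have hq : 0 ≤ 13 * ρ / δ := by positivity
  have hc : 0 ≤ ⌈13 * ρ / δ⌉ := Int.ceil_nonneg hq
  have h1 : (pin z₀ ρ δ).card ≤ (2 * ⌈13 * ρ / δ⌉ + 1).toNat * (2 * ⌈13 * ρ / δ⌉ + 1).toNat := by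
    classical
    unfold pin
    refine (Finset.card_filter_le _ _).trans ?_
    rw [Finset.card_product, Int.card_Icc]
    have e : ⌈13 * ρ / δ⌉ + 1 - -⌈13 * ρ / δ⌉ = 2 * ⌈13 * ρ / δ⌉ + 1 := by ring
    rw [e]
  have h2 : (((2 * ⌈13 * ρ / δ⌉ + 1).toNat : ℕ) : ℝ) = 2 * (⌈13 * ρ / δ⌉ : ℝ) + 1 := by
    have e : (((2 * ⌈13 * ρ / δ⌉ + 1).toNat : ℕ) : ℤ) = 2 * ⌈13 * ρ / δ⌉ + 1 :=
      Int.toNat_of_nonneg (by linarith)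
    have e' : ((((2 * ⌈13 * ρ / δ⌉ + 1).toNat : ℕ) : ℤ) : ℝ) =
        ((2 * ⌈13 * ρ / δ⌉ + 1 : ℤ) : ℝ) := by rw [e]
    rw [Int.cast_natCast] at e'
    rw [e']
    push_cast
    ring
  have h3 : (⌈13 * ρ / δ⌉ : ℝ) * δ ≤ 13 * ρ + δ := by
    have e := (Int.ceil_lt_add_one (13 * ρ / δ)).le
    have e2 := mul_le_mul_of_nonneg_right e hδ.le
    have e3 : (13 * ρ / δ + 1) * δ = 13 * ρ + δ := by
      field_simp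
    linarith
  have h4 : (2 * (⌈13 * ρ / δ⌉ : ℝ) + 1) * δ ≤ 29 * ρ := by nlinarith
  have h5 : 0 ≤ (2 * (⌈13 * ρ / δ⌉ : ℝ) + 1) * δ := by
    have : (0 : ℝ) ≤ (⌈13 * ρ / δ⌉ : ℝ) := by exact_mod_cast hc
    positivity
  have h6 : ((pin z₀ ρ δ).card : ℝ) ≤ (2 * (⌈13 * ρ / δ⌉ : ℝ) + 1) ^ 2 := by
    have e : ((pin z₀ ρ δ).card : ℝ) ≤
        (((2 * ⌈13 * ρ / δ⌉ + 1).toNat * (2 * ⌈13 * ρ / δ⌉ + 1).toNat : ℕ) : ℝ) := by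
      exact_mod_cast h1
    rw [Nat.cast_mul, h2] at e
    linarith
  calc ((pin z₀ ρ δ).card : ℝ) * δ ^ 2 ≤ (2 * (⌈13 * ρ / δ⌉ : ℝ) + 1) ^ 2 * δ ^ 2 :=
        mul_le_mul_of_nonneg_right h6 (sq_nonneg _)
    _ = ((2 * (⌈13 * ρ / δ⌉ : ℝ) + 1) * δ) ^ 2 := by ring
    _ ≤ (29 * ρ) ^ 2 := pow_le_pow_left₀ h5 h4 2
    _ = 841 * ρ ^ 2 := by ring

theorem small_log (B : ℝ) {η : ℝ} (hη : 0 < η) :
    ∃ δ₀ > 0, ∀ δ : ℝ, 0 < δ → δ ≤ δ₀ → B * δ ^ 2 * (1 + |Real.log δ|) ^ 2 ≤ η := by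
  have hB : 0 < 9 * (|B| + 1) := by positivity
  refine ⟨min 1 (η / (9 * (|B| + 1))), lt_min one_pos (div_pos hη hB), fun δ h0 h1 => ?_⟩
  have h2 : δ ≤ 1 := h1.trans (min_le_left _ _)
  have h3 : δ ≤ η / (9 * (|B| + 1)) := h1.trans (min_le_right _ _)
  have h4 : |Real.log δ * δ ^ (1 / 2 : ℝ)| < 1 / (1 / 2 : ℝ) :=
    Real.abs_log_mul_self_rpow_lt δ (1 / 2) h0 h2 (by norm_num)
  have hs0 : 0 ≤ δ ^ (1 / 2 : ℝ) := Real.rpow_nonneg h0.le _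
  have hs1 : δ ^ (1 / 2 : ℝ) ≤ 1 := Real.rpow_le_one h0.le h2 (by norm_num)
  have hss : δ ^ (1 / 2 : ℝ) * δ ^ (1 / 2 : ℝ) = δ := by
    rw [← Real.rpow_add h0]
    norm_num
  rw [abs_mul, abs_of_nonneg hs0] at h4
  norm_num at h4
  have h5 : δ ^ (1 / 2 : ℝ) * (1 + |Real.log δ|) ≤ 3 := by
    norm_num
    norm_num at hs1
    linarith
  have h6 : 0 ≤ δ ^ (1 / 2 : ℝ) * (1 + |Real.log δ|) := by positivity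
  have h7 : (δ ^ (1 / 2 : ℝ) * (1 + |Real.log δ|)) ^ 2 ≤ 3 ^ 2 := pow_le_pow_left₀ h6 h5 2
  have h8 : (δ ^ (1 / 2 : ℝ) * (1 + |Real.log δ|)) ^ 2 = δ * (1 + |Real.log δ|) ^ 2 := by
    calc (δ ^ (1 / 2 : ℝ) * (1 + |Real.log δ|)) ^ 2
        = (δ ^ (1 / 2 : ℝ) * δ ^ (1 / 2 : ℝ)) * (1 + |Real.log δ|) ^ 2 := by ring
      _ = _ := by rw [hss]
  rw [h8] at h7
  have h9 : 0 ≤ δ * (1 + |Real.log δ|) ^ 2 := by positivity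
  calc B * δ ^ 2 * (1 + |Real.log δ|) ^ 2 = B * (δ * (δ * (1 + |Real.log δ|) ^ 2)) := by ring
    _ ≤ |B| * (δ * (δ * (1 + |Real.log δ|) ^ 2)) :=
        mul_le_mul_of_nonneg_right (le_abs_self B) (by positivity)
    _ ≤ |B| * (δ * 3 ^ 2) := by
        refine mul_le_mul_of_nonneg_left ?_ (abs_nonneg _)
        exact mul_le_mul_of_nonneg_left h7 h0.le
    _ ≤ (|B| + 1) * (δ * 3 ^ 2) := by
        refine mul_le_mul_of_nonneg_right (by linarith) (by positivity)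
    _ = δ * (9 * (|B| + 1)) := by ring
    _ ≤ η := (le_div_iff₀ hB).mp h3

end Pool.Agent.LR
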