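import Pool.Agent.LR.B1.Rest
import Pool.Agent.LR.B6F.Base

/-!
Et_mono, Et_sum: choose the potential u of f (exists_pot), Et_eq_Ex turns Et M S f F into Ex M S u F;
use Ex_mono, Ex_add, Ex_mul_left, Ex_const and Finset induction (Tame.sum, Tame.smul).
Et_sq_le: if nsq M S l = 0 then (pr S l (emb S ψ))² ≤ nsq * M.. = 0 (pr_sq_le; emb S ψ is supported in S:
supp_emb of B1/Basic) and the left side is 0. Otherwise put s = 1/√(nsq l), b = potential of f,
u = potential of l, so nsq f = M b b, nsq l = M u u (IsPot.nsq_eq), pr S l φ = M u φ = M φ u for φ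
supported in S. By Ex_exp with b and s • u:
  Ex M S b (exp (M (emb ψ - b) (s • u))) = exp (s² M u u / 2 - En (b + s u) + En b) ≤
  exp (s² M u u /2 + M b b / 2)   (En_nonneg, En_le), hence
  Ex M S b (exp (s * pr S l (emb ψ))) ≤ exp (s M b u + s² M u u / 2 + M b b / 2)
   = exp (M (b + s u) (b + s u) / 2) ≤ exp ((√(M b b) + s √(M u u))² / 2) = exp ((√(nsq f) + 1)² / 2)
(IsForm.cs of B1/Basic for M b u ≤ √.. √..). The same with -s (use -l, nsq_neg, or s < 0).
Finally y² ≤ exp y + exp (-y) (y² + 2 ≤ exp y + exp (-y): e.g. Real.add_one_le_exp is not enough, use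
Real.quadratic_le_exp_of_nonneg for |y|: 1 + |y| + y²/2 ≤ exp |y| and 1 - |y| ≤ exp (-|y|) give
y²/2 + 2 ≤ ..: this only yields y²/2; with the factor 2 in front one needs y² ≤ exp y + exp(-y):
cosh y ≥ 1 + y²/2: `Real.one_add_sq_div_two_le_cosh`, or `Real.cosh_eq` + Taylor (cosh_le..). Any proof).
So s² Ex (pr²) ≤ 2 exp (..), multiply by nsq l = 1/s².
All functions are Tame: tame_pr, tame_exp_pr, Tame.pow.
-/

set_option autoImplicit false

noncomputable section

open scoped BigOperators Topology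
open Filter

namespace Pool.Agent.LR


variable {W : Type*} [DecidableEq W] {M : BF W} {S : Finset W}

theorem Et_mono (hM : IsForm M) (hP : PDef M S) (f : W → ℝ) {F G : (S → ℤ) → ℝ} (hF : Tame F)
    (hG : Tame G) (hle : ∀ ψ, F ψ ≤ G ψ) : Et M S f F ≤ Et M S f G := by
  obtain ⟨u, hu⟩ := exists_pot hM hP f
  rw [Et_eq_Ex hM hP hu, Et_eq_Ex hM hP hu]
  exact Ex_mono hM hP u hF hG hle

private theorem Ex_fsum (hM : IsForm M) (hP : PDef M S) (u : W → ℝ) {κ : Type*} (t : Finset κ)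
    (c : κ → ℝ) {F : κ → (S → ℤ) → ℝ} (hF : ∀ k ∈ t, Tame (F k)) :
    Ex M S u (fun ψ => ∑ k ∈ t, c k * F k ψ) = ∑ k ∈ t, c k * Ex M S u (F k) := by
  classical
  induction t using Finset.induction_on with
  | empty => simpa using Ex_const hM hP u 0
  | insert a t ha ih =>
    simp only [Finset.sum_insert ha]
    rw [Ex_add hM hP u (Tame.smul (hF a (Finset.mem_insert_self a t)) (c a))
      (Tame.sum t fun k hk => Tame.smul (hF k (Finset.mem_insert_of_mem hk)) (c k)),
      Ex_mul_left, ih fun k hk => hF k (Finset.mem_insert_of_mem hk)]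

theorem Et_sum (hM : IsForm M) (hP : PDef M S) (f : W → ℝ) {κ : Type*} (t : Finset κ) (c : κ → ℝ)
    {F : κ → (S → ℤ) → ℝ} (hF : ∀ k ∈ t, Tame (F k)) :
    Et M S f (fun ψ => ∑ k ∈ t, c k * F k ψ) = ∑ k ∈ t, c k * Et M S f (F k) := by
  obtain ⟨u, hu⟩ := exists_pot hM hP f
  rw [Et_eq_Ex hM hP hu, Ex_fsum hM hP u t c hF]
  exact Finset.sum_congr rfl fun k _ => by rw [Et_eq_Ex hM hP hu]

private theorem sq_le_exp_add (y : ℝ) : y ^ 2 ≤ Real.exp y + Real.exp (-y) := by
  have key : ∀ z : ℝ, 0 ≤ z → z ^ 2 ≤ Real.exp z := by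
    intro z hz
    have h1 := Real.quadratic_le_exp_of_nonneg (x := z / 2) (by linarith)
    have h2 : Real.exp z = Real.exp (z / 2) * Real.exp (z / 2) := by
      rw [← Real.exp_add]; congr 1; ring
    have h3 : (1 + z / 2 + (z / 2) ^ 2 / 2) * (1 + z / 2 + (z / 2) ^ 2 / 2) ≤
        Real.exp (z / 2) * Real.exp (z / 2) :=
      mul_le_mul h1 h1 (by positivity) (by positivity)
    rw [h2]
    refine le_trans ?_ h3
    nlinarith [sq_nonneg (z * (z - 4)), sq_nonneg (z - 2), mul_nonneg hz (sq_nonneg (z - 2)),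
      mul_nonneg hz (sq_nonneg (z - 3)), sq_nonneg (z * z - 4)]
  rcases le_total 0 y with hy | hy
  · have := key y hy
    have := Real.exp_pos (-y)
    linarith
  · have h1 := key (-y) (by linarith)
    have := Real.exp_pos y
    have h2 : (-y) ^ 2 = y ^ 2 := by ring
    linarith

private theorem Ex_exp_pr_le (hM : IsForm M) (hP : PDef M S) {l b u : W → ℝ}
    (hu : IsPot M S l u) (s : ℝ) (hs : s ^ 2 * M u u = 1) :
    Ex M S b (fun ψ => Real.exp (s * pr S l (emb S ψ))) ≤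
      Real.exp ((Real.sqrt (M b b) + 1) ^ 2 / 2) := by
  have e1 : ∀ ψ : S → ℤ, Real.exp (s * pr S l (emb S ψ)) =
      Real.exp (s * M b u) * Real.exp (M (emb S ψ - b) (s • u)) := by
    intro ψ
    rw [← Real.exp_add]
    congr 1
    have h1 : M (emb S ψ) u = pr S l (emb S ψ) := by
      rw [hM.symm, hu.2 _ (supp_emb ψ)]
    simp only [map_sub, LinearMap.sub_apply, map_smul, smul_eq_mul]
    rw [h1]
    ring
  simp only [e1]
  rw [Ex_mul_left, Ex_exp hM hP b (s • u), ← Real.exp_add]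
  refine Real.exp_le_exp.2 ?_
  have h1 := En_nonneg hM hP (b + s • u)
  have h2 := En_le hM hP b
  have h3 : M (s • u) (s • u) = 1 := by rw [smul_sq, hs]
  have h4 : s * M b u ≤ Real.sqrt (M b b) := by
    have h5 : (s * M b u) ^ 2 ≤ M b b := by
      have h6 := hM.cs b u
      calc (s * M b u) ^ 2 = s ^ 2 * (M b u) ^ 2 := by ring
        _ ≤ s ^ 2 * (M b b * M u u) := mul_le_mul_of_nonneg_left h6 (sq_nonneg s)
        _ = (s ^ 2 * M u u) * M b b := by ring
        _ = M b b := by rw [hs, one_mul]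
    exact (le_abs_self _).trans (Real.abs_le_sqrt h5)
  have h7 := Real.sq_sqrt (hM.nonneg b)
  rw [h3]
  nlinarith

theorem Et_sq_le (hM : IsForm M) (hP : PDef M S) (f l : W → ℝ) :
    Et M S f (fun ψ => (pr S l (emb S ψ)) ^ 2) ≤
      2 * Real.exp ((Real.sqrt (nsq M S f) + 1) ^ 2 / 2) * nsq M S l := by
  obtain ⟨b, hb⟩ := exists_pot hM hP f
  obtain ⟨u, hu⟩ := exists_pot hM hP l
  rw [Et_eq_Ex hM hP hb, IsPot.nsq_eq hM hb]
  have hT : Tame (O := S) (fun ψ => (pr S l (emb S ψ)) ^ 2) := Tame.pow (tame_pr l) 2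
  rcases (nsq_nonneg hM hP l).eq_or_lt with h0 | h0
  · rw [← h0, mul_zero]
    have h1 : Ex M S b (fun ψ => (pr S l (emb S ψ)) ^ 2) ≤ Ex M S b (fun _ => 0) := by
      refine Ex_mono hM hP b hT (tame_const 0) fun ψ => ?_
      have := pr_sq_le hM hP l (supp_emb ψ)
      rw [← h0, zero_mul] at this
      exact this
    rwa [Ex_const hM hP b 0] at h1
  · have hq : nsq M S l = M u u := IsPot.nsq_eq hM hu
    rw [hq] at h0 ⊢
    have hsq : 0 < Real.sqrt (M u u) := Real.sqrt_pos.2 h0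
    set s : ℝ := (Real.sqrt (M u u))⁻¹ with hsdef
    have hs : s ^ 2 * M u u = 1 := by
      have h1 := Real.sq_sqrt h0.le
      rw [hsdef, inv_pow, h1, inv_mul_cancel₀ h0.ne']
    have hs' : (-s) ^ 2 * M u u = 1 := by rw [neg_sq]; exact hs
    have tE : ∀ r : ℝ, Tame (O := S) (fun ψ => Real.exp (r * pr S l (emb S ψ))) := by
      intro r
      have h1 := tame_exp_pr (O := S) (r • l)
      simpa only [pr_smul_left] using h1
    have hE : Ex M S b (fun ψ => (pr S l (emb S ψ)) ^ 2) ≤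
        Ex M S b (fun ψ => M u u * (Real.exp (s * pr S l (emb S ψ)) +
          Real.exp (-s * pr S l (emb S ψ)))) := by
      refine Ex_mono hM hP b hT (Tame.smul (Tame.add (tE s) (tE (-s))) _) fun ψ => ?_
      have h1 := sq_le_exp_add (s * pr S l (emb S ψ))
      have h2 : -(s * pr S l (emb S ψ)) = -s * pr S l (emb S ψ) := by ring
      rw [h2] at h1
      calc (pr S l (emb S ψ)) ^ 2 = (s ^ 2 * M u u) * (pr S l (emb S ψ)) ^ 2 := by rw [hs, one_mul]
        _ = M u u * (s * pr S l (emb S ψ)) ^ 2 := by ring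
        _ ≤ _ := mul_le_mul_of_nonneg_left h1 h0.le
    rw [Ex_mul_left, Ex_add hM hP b (tE s) (tE (-s))] at hE
    have h1 := Ex_exp_pr_le hM hP (b := b) hu s hs
    have h2 := Ex_exp_pr_le hM hP (b := b) hu (-s) hs'
    calc _ ≤ M u u * (Ex M S b (fun ψ => Real.exp (s * pr S l (emb S ψ))) +
          Ex M S b (fun ψ => Real.exp (-s * pr S l (emb S ψ)))) := hE
      _ ≤ M u u * (Real.exp ((Real.sqrt (M b b) + 1) ^ 2 / 2) +
          Real.exp ((Real.sqrt (M b b) + 1) ^ 2 / 2)) :=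
          mul_le_mul_of_nonneg_left (add_le_add h1 h2) h0.le
      _ = 2 * Real.exp ((Real.sqrt (M b b) + 1) ^ 2 / 2) * M u u := by ring

end Pool.Agent.LR
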