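import Pool.Agent.LR.B6F.CutN
import Pool.Agent.LR.B6F.FeedA
import Pool.Agent.LR.B6F.Lim
import Pool.Agent.LR.B6F.Tilt

/-! # 7.6: the feedback of the cut blocks is small (both explorations) -/

set_option autoImplicit false

noncomputable section

open scoped BigOperators Topology
open Filter

namespace Pool.Agent.LR


theorem avg_restr {A B : Finset V} (φ : V → ℝ) : avg B (restr A φ) = pr A (bch B) φ := by
  rw [avg_apply, pr, Finset.mul_sum]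
  have h1 : ∀ x ∈ B, (B.card : ℝ)⁻¹ * restr A φ x = if x ∈ A then (B.card : ℝ)⁻¹ * φ x else 0 := by
    intro x _
    unfold restr
    split_ifs
    · rfl
    · rw [mul_zero]
  have h2 : ∀ x ∈ A, bch B x * φ x = if x ∈ B then (B.card : ℝ)⁻¹ * φ x else 0 := by
    intro x _
    unfold bch
    split_ifs
    · rfl
    · rw [zero_mul]
  rw [Finset.sum_congr rfl h1, Finset.sum_congr rfl h2, ← Finset.sum_filter, ← Finset.sum_filter,
    Finset.filter_mem_eq_inter, Finset.filter_mem_eq_inter, Finset.inter_comm]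

theorem adm_Xc (z₀ : P) (ρ M δ : ℝ) (n : ℕ) (S A : Finset V) :
    Adm S (fun φ => Xc z₀ ρ M δ n A (restr A φ)) := by
  unfold Xc
  refine Adm.sum _ fun i _ => (Adm.const _).mul ?_
  have h := Adm.prA (S := S) A (bch (blk z₀ ρ δ n i))
  have h2 : (fun φ : V → ℝ => (avg (blk z₀ ρ δ n i) (restr A φ)) ^ 2) =
      fun φ => pr A (bch (blk z₀ ρ δ n i)) φ * pr A (bch (blk z₀ ρ δ n i)) φ := by
    funext φ
    rw [avg_restr, sq]
  rw [h2]
  exact h.mul h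

theorem adm_Yc (z₀ : P) (ρ M δ : ℝ) (n : ℕ) :
    Adm (SS z₀ ρ n) (fun φ => Yc z₀ ρ M δ n φ) := by
  unfold Yc
  refine Adm.sum _ fun i _ => (Adm.const _).mul ?_
  have h := Adm.prA (S := SS z₀ ρ n) (SS z₀ ρ n) (bch (blk z₀ ρ δ n i))
  have h2 : (fun φ : V → ℝ => (avg (blk z₀ ρ δ n i) φ) ^ 2) =
      fun φ => pr (SS z₀ ρ n) (bch (blk z₀ ρ δ n i)) φ *
        pr (SS z₀ ρ n) (bch (blk z₀ ρ δ n i)) φ := by
    funext φ
    rw [pr_bch (blk_subset z₀ ρ δ n i), sq]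
  rw [h2]
  exact h.mul h

open Classical in
/-- 7.6: the feedback charge has small dual norm. -/
theorem feedback {α β : ℝ} (hα : 4 < α) (hβ : 0 < β) (z₀ : P) {ρ : ℝ} (hρ : 0 < ρ) {t : ℝ}
    (ht1 : t < 1) {R : ℕ → Finset V} {f : ℕ → V → ℝ} (hE : Expl z₀ ρ R f)
    {M : ℝ} (hM : 1 ≤ M) {η η' : ℝ} (hη : 0 < η) (hη' : 0 < η') :
    ∃ δ₀ > 0, ∀ δ : ℝ, 0 < δ → δ ≤ δ₀ → ∀ᶠ n : ℕ in atTop,
      EtA (JJ α β) (MP α β z₀ ρ M δ n) (SS z₀ ρ n) (R n) (f n) (f n)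
        (fun A φ => if Chn (fun u v => len (u - v) ≤ (n : ℝ) ^ t)
            (seeds (SS z₀ ρ n) (R n) (f n)) A ∧
            η' < nsq (MP α β z₀ ρ M δ n) (SS z₀ ρ n \ A) (fb (pinF z₀ ρ M δ n) (restr A φ))
          then 1 else 0) ≤ η := by
  obtain ⟨C, hC, hfb⟩ := nsq_fb_le hα hβ z₀ hρ hE
  obtain ⟨C₁, hC₁, h1⟩ := nsq_blk hα hβ z₀ hρ
  obtain ⟨K, hK0, hK⟩ := hE.bd
  obtain ⟨C₂, hC₂, h2⟩ := nsq_bdd hα hβ z₀ hρ K
  have hM0 : 0 < M := by linarith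
  set D : ℝ := 2 * Real.exp ((Real.sqrt C₂ + 1) ^ 2 / 2) * C₁ with hD
  have hD0 : 0 < D := by positivity
  obtain ⟨δ₁, hδ₁, hs⟩ := small_log (2 * (C * M) * (M * (841 * ρ ^ 2) * D) / η') hη
  refine ⟨min δ₁ (min (ρ / 32) (1 / (1 + 8 * (C * M)))), by positivity, fun δ hδ hδle => ?_⟩
  have hd1 : δ ≤ δ₁ := hδle.trans (min_le_left _ _)
  have hd2 : δ ≤ ρ / 32 := hδle.trans ((min_le_right _ _).trans (min_le_left _ _))
  have hd3 : δ ≤ 1 / (1 + 8 * (C * M)) := hδle.trans ((min_le_right _ _).trans (min_le_right _ _))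
  have hd8 : δ ≤ ρ / 8 := by linarith
  have hdρ : δ ≤ ρ := by linarith
  have hCM : 0 < C * M := by positivity
  have hθ : 8 * (C * M * δ ^ 2) ≤ 1 := by
    rw [le_div_iff₀ (by positivity)] at hd3
    have h3 : δ ≤ 1 := by nlinarith
    nlinarith [mul_pos hCM hδ]
  filter_upwards [mod_ev hα hβ z₀ hρ hM hδ hd8, h1 M δ hM hδ hd8, h2 M δ hM hδ hd8,
    hfb M δ hM hδ hd2 t ht1] with n hmod hbl hb hf
  have hform := isForm_MM hmod
  have hnf : nsq (MM (JJ α β) (pinF z₀ ρ M δ n) (SS z₀ ρ n)) (SS z₀ ρ n) (f n) ≤ C₂ := by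
    refine hb (f n) fun y _ => ?_
    rw [abs_of_nonneg (hE.f0 n y)]
    exact hK n y
  have hY : Et (MM (JJ α β) (pinF z₀ ρ M δ n) (SS z₀ ρ n)) (SS z₀ ρ n) (f n)
      (fun ψ => Yc z₀ ρ M δ n (emb (SS z₀ ρ n) ψ)) ≤
        M * (841 * ρ ^ 2) * (D * (1 + |Real.log δ|) ^ 2) := by
    have e : (fun ψ : SS z₀ ρ n → ℤ => Yc z₀ ρ M δ n (emb (SS z₀ ρ n) ψ)) =
        fun ψ => ∑ i ∈ pin z₀ ρ δ, M * δ ^ 2 *
          (pr (SS z₀ ρ n) (bch (blk z₀ ρ δ n i)) (emb (SS z₀ ρ n) ψ)) ^ 2 := by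
      funext ψ
      unfold Yc
      refine Finset.sum_congr rfl fun i _ => ?_
      rw [pr_bch (blk_subset z₀ ρ δ n i)]
    rw [e, Et_sum hform hmod.pd (f n) (pin z₀ ρ δ) (fun _ => M * δ ^ 2)
      (fun i _ => Tame.pow (tame_pr _) 2)]
    have h3 : ∀ i ∈ pin z₀ ρ δ, M * δ ^ 2 *
        Et (MM (JJ α β) (pinF z₀ ρ M δ n) (SS z₀ ρ n)) (SS z₀ ρ n) (f n)
          (fun ψ => (pr (SS z₀ ρ n) (bch (blk z₀ ρ δ n i)) (emb (SS z₀ ρ n) ψ)) ^ 2) ≤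
        M * δ ^ 2 * (D * (1 + |Real.log δ|) ^ 2) := by
      intro i hi
      refine mul_le_mul_of_nonneg_left ?_ (by positivity)
      refine (Et_sq_le hform hmod.pd (f n) _).trans ?_
      have h6 := hbl i hi
      calc 2 * Real.exp ((Real.sqrt (nsq (MM (JJ α β) (pinF z₀ ρ M δ n) (SS z₀ ρ n)) (SS z₀ ρ n)
              (f n)) + 1) ^ 2 / 2) * nsq (MM (JJ α β) (pinF z₀ ρ M δ n) (SS z₀ ρ n)) (SS z₀ ρ n)
              (bch (blk z₀ ρ δ n i))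
          ≤ 2 * Real.exp ((Real.sqrt C₂ + 1) ^ 2 / 2) * (C₁ * (1 + |Real.log δ|) ^ 2) := by
            apply mul_le_mul _ h6 (nsq_nonneg hform hmod.pd _) (by positivity)
            gcongr
        _ = D * (1 + |Real.log δ|) ^ 2 := by rw [hD]; ring
    refine (Finset.sum_le_sum h3).trans ?_
    rw [Finset.sum_const, nsmul_eq_mul]
    have h4 := pin_card z₀ hρ hδ hdρ
    have h5 : 0 ≤ M * (D * (1 + |Real.log δ|) ^ 2) := by positivity
    calc ((pin z₀ ρ δ).card : ℝ) * (M * δ ^ 2 * (D * (1 + |Real.log δ|) ^ 2))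
        = ((pin z₀ ρ δ).card * δ ^ 2) * (M * (D * (1 + |Real.log δ|) ^ 2)) := by ring
      _ ≤ (841 * ρ ^ 2) * (M * (D * (1 + |Real.log δ|) ^ 2)) := mul_le_mul_of_nonneg_right h4 h5
      _ = M * (841 * ρ ^ 2) * (D * (1 + |Real.log δ|) ^ 2) := by ring
  refine (feed_abs hmod (hE.RS n) (fun x _ => hE.f0 n x)
    (fun A => Chn (stp t n) (seeds (SS z₀ ρ n) (R n) (f n)) A)
    (fun A φ => Xc z₀ ρ M δ n A φ) (fun φ => Yc z₀ ρ M δ n φ)
    (fun A φ => Finset.sum_nonneg fun i _ => by positivity)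
    (fun φ => Finset.sum_nonneg fun i _ => by positivity)
    (fun A _ => adm_Xc z₀ ρ M δ n _ A) (adm_Yc z₀ ρ M δ n)
    (θ := C * M * δ ^ 2) (by positivity) hθ ?_ ?_ hY hη').trans ?_
  · intro A hA hRA hch φ hφ
    exact hf A hA hRA hch φ hφ
  · intro A hA φ hφ
    exact Yc_ge z₀ ρ hM0.le n hA hφ
  · refine le_trans (le_of_eq ?_) (hs δ hδ hd1)
    ring

end Pool.Agent.LR
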