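import Pool.Agent.LR.B6F.Base

/-!
PLAN (module LR-B6F-Geo). Geometry of the shells. Everything is the triangle inequality for `lenP`
(prove privately: lenP is the Euclidean norm of the plane, lenP (z + w) ≤ lenP z + lenP w, lenP (-z) = lenP z;
e.g. as in `len_add_le` of Coup.lean) and `lenP (sc n x - sc n y) = len (x - y) / n` for `0 < n`.

0. `mem_cellP`: if 0 < δ, x ∈ blk z₀ ρ δ n i then sc n x ∈ cellP z₀ δ i (cel z₀ δ n x = i: floor
   inequalities ⌊a/δ⌋ ≤ a/δ < ⌊a/δ⌋ + 1 for both coordinates).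
1. expl_out: RS: outR is a filter. f = 0. far: seeds = outR (the filter of f ≠ 0 is empty). Let i ∈ pin,
   blk i not contained in outR, x ∈ blk i. If cellP i ⊆ shell 5 then every point y of blk i satisfies
   5ρ ≤ lenP (sc n y - z₀), so blk i ⊆ outR, contradiction. Hence the cell is in shell 1 or 3 and
   lenP (sc n x - z₀) ≤ 4ρ; y ∈ outR: 5ρ ≤ lenP (sc n y - z₀). So len (x - y) / n ≥ ρ ≥ ρ/4.
2. expl_ghost: seeds = S.filter (f ≠ 0), by hs y is in the open ring (2+1/4, 2+3/4)ρ; x is in shell 1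
   (≤ 2ρ), 3 (≥ 3ρ) or 5 (≥ 5ρ): distance ≥ ρ/4 in all three cases.
`ρ` is positive in both statements.
-/

set_option autoImplicit false

noncomputable section

open scoped BigOperators Topology
open Filter

namespace Pool.Agent.LR

private theorem lenP_eq_norm' (z : P) : lenP z = ‖(⟨z.1, z.2⟩ : ℂ)‖ := by
  rw [lenP, Complex.norm_def, Complex.normSq_mk]
  congr 1
  ring

private theorem lenP_add_le' (z w : P) : lenP (z + w) ≤ lenP z + lenP w := by
  rw [lenP_eq_norm', lenP_eq_norm', lenP_eq_norm']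
  have h : (⟨(z + w).1, (z + w).2⟩ : ℂ) = ⟨z.1, z.2⟩ + ⟨w.1, w.2⟩ := by
    apply Complex.ext <;> simp
  rw [h]
  exact norm_add_le _ _

private theorem lenP_neg' (z : P) : lenP (-z) = lenP z := by
  simp [lenP]

private theorem lenP_sc (n : ℕ) (x y : V) : lenP (sc n x - sc n y) = len (x - y) / n := by
  have hn : (0 : ℝ) ≤ n := Nat.cast_nonneg n
  have e : (sc n x - sc n y).1 ^ 2 + (sc n x - sc n y).2 ^ 2 =
      ((((x - y).1 : ℤ) : ℝ) ^ 2 + (((x - y).2 : ℤ) : ℝ) ^ 2) / (n : ℝ) ^ 2 := by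
    simp only [sc, Prod.fst_sub, Prod.snd_sub, Int.cast_sub]
    ring
  rw [lenP, len, e, Real.sqrt_div (by positivity), Real.sqrt_sq hn]

/-- a lower bound of the distance of two sites from the distances to the centre -/
private theorem far_of {z₀ : P} {n : ℕ} (hn : 0 < n) {x y : V} {t : ℝ}
    (h : lenP (sc n x - z₀) + t ≤ lenP (sc n y - z₀)) : t * n ≤ len (x - y) := by
  have hn' : (0 : ℝ) < n := by exact_mod_cast hn
  have h1 : sc n y - z₀ = (sc n x - z₀) + -(sc n x - sc n y) := by abel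
  have h2 := lenP_add_le' (sc n x - z₀) (-(sc n x - sc n y))
  rw [← h1, lenP_neg', lenP_sc] at h2
  have h3 : t ≤ len (x - y) / n := by linarith
  rwa [le_div_iff₀ hn'] at h3

theorem mem_cellP (z₀ : P) {ρ δ : ℝ} (hδ : 0 < δ) {n : ℕ} {i x : V} (h : x ∈ blk z₀ ρ δ n i) :
    sc n x ∈ cellP z₀ δ i := by
  have h1 : cel z₀ δ n x = i := (Finset.mem_filter.1 h).2
  have e1 : ⌊((sc n x).1 - z₀.1) / δ⌋ = i.1 := congrArg Prod.fst h1
  have e2 : ⌊((sc n x).2 - z₀.2) / δ⌋ = i.2 := congrArg Prod.snd h1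
  have key : ∀ (a b : ℝ) (j : ℤ), ⌊(a - b) / δ⌋ = j → b + j * δ ≤ a ∧ a ≤ b + (j + 1) * δ := by
    intro a b j hj
    rw [Int.floor_eq_iff, le_div_iff₀ hδ, div_lt_iff₀ hδ] at hj
    exact ⟨by linarith [hj.1], by linarith [hj.2]⟩
  exact ⟨key _ _ _ e1, key _ _ _ e2⟩

private theorem pin_cases {z₀ : P} {ρ δ : ℝ} {i : V} (hi : i ∈ pin z₀ ρ δ) :
    cellP z₀ δ i ⊆ shell z₀ ρ 1 ∨ cellP z₀ δ i ⊆ shell z₀ ρ 3 ∨ cellP z₀ δ i ⊆ shell z₀ ρ 5 := by
  classical
  unfold pin at hi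
  exact (Finset.mem_filter.1 hi).2

theorem expl_out (z₀ : P) {ρ : ℝ} (hρ : 0 < ρ) : Expl z₀ ρ (outR z₀ ρ) (fun _ => 0) := by
  refine ⟨fun n => Finset.filter_subset _ _, fun n x => le_rfl, ⟨0, le_rfl, fun n x => ?_⟩, ?_⟩
  · rw [zero_div]
    exact le_rfl
  · intro n δ hn hδ i hi hnot x hx y hy
    have hy' : y ∈ outR z₀ ρ n := by
      rcases Finset.mem_union.1 hy with h | h
      · exact h
      · exact absurd rfl (Finset.mem_filter.1 h).2
    have hy5 : 5 * ρ ≤ lenP (sc n y - z₀) := (Finset.mem_filter.1 hy').2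
    have hx4 : lenP (sc n x - z₀) ≤ 4 * ρ := by
      have hxc := mem_cellP z₀ hδ hx
      rcases pin_cases hi with h | h | h
      · have h1 := (h hxc).2
        norm_num at h1
        linarith
      · have h1 := (h hxc).2
        norm_num at h1
        linarith
      · exfalso
        apply hnot
        intro w hw
        refine Finset.mem_filter.2 ⟨blk_subset z₀ ρ δ n i hw, ?_⟩
        have h1 := (h (mem_cellP z₀ hδ hw)).1
        norm_num at h1
        exact h1
    have h2 := far_of hn (z₀ := z₀) (x := x) (y := y) (t := ρ) (by linarith)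
    have hn' : (0 : ℝ) ≤ n := Nat.cast_nonneg n
    nlinarith

theorem expl_ghost (z₀ : P) {ρ : ℝ} (hρ : 0 < ρ) {f : ℕ → V → ℝ} (h0 : ∀ n x, 0 ≤ f n x)
    (hb : ∃ K : ℝ, 0 ≤ K ∧ ∀ n x, f n x ≤ K / (n : ℝ) ^ 2)
    (hs : ∀ n x, f n x ≠ 0 → ((2 : ℝ) + 1 / 4) * ρ < lenP (sc n x - z₀) ∧
      lenP (sc n x - z₀) < ((2 : ℝ) + 3 / 4) * ρ) : Expl z₀ ρ (fun _ => ∅) f := by
  refine ⟨fun n => Finset.empty_subset _, h0, hb, ?_⟩
  intro n δ hn hδ i hi _ x hx y hy
  have hy' : f n y ≠ 0 := by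
    rcases Finset.mem_union.1 hy with h | h
    · exact absurd h (Finset.notMem_empty y)
    · exact (Finset.mem_filter.1 h).2
  obtain ⟨hy1, hy2⟩ := hs n y hy'
  have hxc := mem_cellP z₀ hδ hx
  have hsymm : len (x - y) = len (y - x) := by
    rw [← len_neg, neg_sub]
  rcases pin_cases hi with h | h | h
  · have h1 := (h hxc).2
    norm_num at h1
    exact far_of hn (z₀ := z₀) (by linarith)
  · have h1 := (h hxc).1
    norm_num at h1
    rw [hsymm]
    exact far_of hn (z₀ := z₀) (by linarith)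
  · have h1 := (h hxc).1
    norm_num at h1
    rw [hsymm]
    exact far_of hn (z₀ := z₀) (by linarith)

end Pool.Agent.LR
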