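import Pool.Agent.LR.B6F.LongA
import Pool.Agent.LR.B6F.Norm

/-! # 7.4: no long edges (both explorations) -/

set_option autoImplicit false

noncomputable section

open scoped BigOperators Topology
open Filter

namespace Pool.Agent.LR


open Classical in
/-- 7.4: with probability tending to one the explored set is connected to the seeds by chains with
steps of length at most `n ^ t`. -/
theorem no_long {α β : ℝ} (hα : 4 < α) (hβ : 0 < β) (z₀ : P) {ρ : ℝ} (hρ : 0 < ρ) {t : ℝ}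
    (ht : 2 / (α - 2) < t) {R : ℕ → Finset V} {f : ℕ → V → ℝ} (hE : Expl z₀ ρ R f)
    {M δ : ℝ} (hM : 1 ≤ M) (hδ : 0 < δ) (hδρ : δ ≤ ρ / 32) {η : ℝ} (hη : 0 < η) :
    ∀ᶠ n : ℕ in atTop, EtA (JJ α β) (MP α β z₀ ρ M δ n) (SS z₀ ρ n) (R n) (f n) (f n)
      (fun A _ => if Chn (fun u v => len (u - v) ≤ (n : ℝ) ^ t) (seeds (SS z₀ ρ n) (R n) (f n)) A
        then 0 else 1) ≤ η := by
  obtain ⟨C₁, hC₁, h1⟩ := nsq_site hα hβ z₀ hρ
  obtain ⟨K, hK0, hK⟩ := hE.bd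
  obtain ⟨C₂, hC₂, h2⟩ := nsq_bdd hα hβ z₀ hρ K
  set D : ℝ := 2 * Real.exp ((Real.sqrt C₂ + 1) ^ 2 / 2) * C₁ with hD
  have hD0 : 0 < D := by positivity
  have hlim := (long_sum hα hβ z₀ hρ ht).const_mul D
  rw [mul_zero] at hlim
  have hδ8 : δ ≤ ρ / 8 := by linarith
  filter_upwards [mod_ev hα hβ z₀ hρ hM hδ hδ8, h1 M δ hM hδ hδ8, h2 M δ hM hδ hδ8,
    hlim.eventually_le_const hη] with n hmod hs hb hl
  have hform := isForm_MM hmod
  refine (EtA_not_Chn_le hmod (fun x _ => hE.f0 n x) (hE.RS n) (stp t n)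
    (fun _ _ => stp_symm) (K := D * Real.log n ^ 2) ?_).trans ?_
  · intro x hx
    have h3 := Et_sq_le hform hmod.pd (f n) (Pi.single x 1)
    have h4 : (fun ψ : SS z₀ ρ n → ℤ => (pr (SS z₀ ρ n) (Pi.single x 1) (emb (SS z₀ ρ n) ψ)) ^ 2) =
        fun ψ => (emb (SS z₀ ρ n) ψ x) ^ 2 := by
      funext ψ
      rw [pr_single hx]
    rw [h4] at h3
    refine h3.trans ?_
    have h5 : nsq (MM (JJ α β) (pinF z₀ ρ M δ n) (SS z₀ ρ n)) (SS z₀ ρ n) (f n) ≤ C₂ := by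
      refine hb (f n) fun y _ => ?_
      rw [abs_of_nonneg (hE.f0 n y)]
      exact hK n y
    have h6 := hs x hx
    have h7 : (Real.sqrt (nsq (MM (JJ α β) (pinF z₀ ρ M δ n) (SS z₀ ρ n)) (SS z₀ ρ n) (f n)) + 1) ^ 2
        ≤ (Real.sqrt C₂ + 1) ^ 2 := by
      gcongr
    calc 2 * Real.exp ((Real.sqrt (nsq (MM (JJ α β) (pinF z₀ ρ M δ n) (SS z₀ ρ n)) (SS z₀ ρ n)
            (f n)) + 1) ^ 2 / 2) * nsq (MM (JJ α β) (pinF z₀ ρ M δ n) (SS z₀ ρ n)) (SS z₀ ρ n)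
            (Pi.single x 1)
        ≤ 2 * Real.exp ((Real.sqrt C₂ + 1) ^ 2 / 2) * (C₁ * Real.log n ^ 2) := by
          apply mul_le_mul _ h6 (nsq_nonneg hform hmod.pd _) (by positivity)
          gcongr
      _ = D * Real.log n ^ 2 := by rw [hD]; ring
  · rw [mul_assoc]
    exact hl

end Pool.Agent.LR
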