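import Pool.Agent.LR.B6.Ratio
import Pool.Agent.LR.B6F.Tilt

/-!
PLAN (module LR-B6F-LongA). `EtA J M S R f h Ξ = Et M S h (fun ψ => ∑ A ∈ S.powerset, PA .. A * Ξ A (emb S ψ))`
by definition (rfl: EtA, SuA, Et). By Et_mono and sum_PA_not_Chn it is at most
Et M S h (fun ψ => ∑ e ∈ long pairs, J e.1 e.2 * |φ e.1 * φ e.2|), φ = emb S ψ,
and |φ x φ y| ≤ (φ x ^ 2 + φ y ^ 2) / 2. Again Et_mono, then Et_sum, and hK twice (e.1, e.2 ∈ S) with
J ≥ 0. Tameness: the first function is bounded (it is between 0 and 1: PA_nonneg, sum_PA: tame_bdd 1);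
φ x ^ 2 is tame (tame_pr (Pi.single x 1) with pr_single, Tame.pow; or tame_lin (ev x)).
-/

set_option autoImplicit false

noncomputable section

open scoped BigOperators Topology
open Filter

namespace Pool.Agent.LR


variable {W : Type*} [DecidableEq W] {J : W → W → ℝ} {N : BF W} {S R : Finset W} {f h : W → ℝ}

open Classical in
theorem EtA_not_Chn_le (hMod : Mod J N S) (f0 : ∀ x ∈ S, 0 ≤ f x) (hR : R ⊆ S)
    (s : W → W → Prop) (hs : ∀ u v, s u v → s v u) {K : ℝ}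
    (hK : ∀ x ∈ S, Et (MM J N S) S h (fun ψ => (emb S ψ x) ^ 2) ≤ K) :
    EtA J (MM J N S) S R f h (fun A _ => if Chn s (seeds S R f) A then 0 else 1) ≤
      K * ∑ e ∈ (S ×ˢ S).filter (fun e => ¬ s e.1 e.2), J e.1 e.2 := by
  have hM : IsForm (MM J N S) :=
    (IsForm.sum _ fun x _ => IsForm.sum _ fun y _ =>
      isForm_rk (div_nonneg (hMod.J0 x y) (by norm_num)) _).add hMod.Nf
  have hP : PDef (MM J N S) S := hMod.pd
  have hEtA : EtA J (MM J N S) S R f h (fun A _ => if Chn s (seeds S R f) A then 0 else 1) =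
      Et (MM J N S) S h (fun ψ => ∑ A ∈ S.powerset, PA J S R f (emb S ψ) A *
        (if Chn s (seeds S R f) A then 0 else 1)) := rfl
  rw [hEtA]
  have t1 : Tame (fun ψ : S → ℤ => ∑ A ∈ S.powerset, PA J S R f (emb S ψ) A *
      (if Chn s (seeds S R f) A then (0 : ℝ) else 1)) := by
    refine tame_bdd 1 fun ψ => ?_
    have hnn : ∀ A ∈ S.powerset, 0 ≤ PA J S R f (emb S ψ) A *
        (if Chn s (seeds S R f) A then (0 : ℝ) else 1) := fun A _ =>
      mul_nonneg (PA_nonneg hMod.J0 f0) (by split_ifs <;> norm_num)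
    rw [abs_of_nonneg (Finset.sum_nonneg hnn)]
    refine le_trans (Finset.sum_le_sum fun A _ => ?_)
      (le_of_eq (sum_PA (J := J) (S := S) (R := R) (f := f) (φ := emb S ψ)))
    refine mul_le_of_le_one_right (PA_nonneg hMod.J0 f0) ?_
    split_ifs <;> norm_num
  have t2 : ∀ x : W, Tame (fun ψ : S → ℤ => (emb S ψ x) ^ 2) := fun x =>
    Tame.pow (tame_lin (O := S) (ev x)) 2
  let E := (S ×ˢ S).filter (fun e => ¬ s e.1 e.2)
  let c : (W × W) × Bool → ℝ := fun k => J k.1.1 k.1.2 / 2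
  let F : (W × W) × Bool → (S → ℤ) → ℝ := fun k ψ =>
    (emb S ψ (if k.2 then k.1.1 else k.1.2)) ^ 2
  have hF : ∀ k ∈ E ×ˢ (Finset.univ : Finset Bool), Tame (F k) := fun k _ => t2 _
  have t3 : Tame (fun ψ : S → ℤ => ∑ k ∈ E ×ˢ (Finset.univ : Finset Bool), c k * F k ψ) :=
    Tame.sum _ fun k hk => Tame.smul (hF k hk) (c k)
  have step1 : ∀ ψ : S → ℤ, (∑ A ∈ S.powerset, PA J S R f (emb S ψ) A *
      (if Chn s (seeds S R f) A then (0 : ℝ) else 1)) ≤
      ∑ k ∈ E ×ˢ (Finset.univ : Finset Bool), c k * F k ψ := by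
    intro ψ
    refine (sum_PA_not_Chn hMod.J0 f0 hR s hs).trans ?_
    rw [Finset.sum_product]
    refine Finset.sum_le_sum fun e _ => ?_
    have h1 : ∑ b : Bool, c (e, b) * F (e, b) ψ =
        J e.1 e.2 * (((emb S ψ e.1) ^ 2 + (emb S ψ e.2) ^ 2) / 2) := by
      rw [Fintype.sum_bool]
      show J e.1 e.2 / 2 * (emb S ψ e.1) ^ 2 + J e.1 e.2 / 2 * (emb S ψ e.2) ^ 2 = _
      ring
    rw [h1]
    refine mul_le_mul_of_nonneg_left ?_ (hMod.J0 _ _)
    rw [abs_mul]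
    nlinarith [sq_nonneg (|emb S ψ e.1| - |emb S ψ e.2|), sq_abs (emb S ψ e.1),
      sq_abs (emb S ψ e.2)]
  refine (Et_mono hM hP h t1 t3 step1).trans ?_
  rw [Et_sum hM hP h _ c hF, Finset.sum_product, Finset.mul_sum]
  refine Finset.sum_le_sum fun e he => ?_
  have heS := Finset.mem_product.1 (Finset.mem_filter.1 he).1
  rw [Fintype.sum_bool]
  have h1 : Et (MM J N S) S h (F (e, true)) ≤ K := hK e.1 heS.1
  have h2 : Et (MM J N S) S h (F (e, false)) ≤ K := hK e.2 heS.2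
  have hJ := hMod.J0 e.1 e.2
  show J e.1 e.2 / 2 * Et (MM J N S) S h (F (e, true)) +
    J e.1 e.2 / 2 * Et (MM J N S) S h (F (e, false)) ≤ K * J e.1 e.2
  nlinarith

end Pool.Agent.LR
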